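import Pool.Agent.Helper26.CL.C7q.Dat

/-!
MP_c75db0, Plan W: data of the cell C7q (written by c75_h51_cw, helper51).
-/

set_option autoImplicit false
set_option maxRecDepth 100000
set_option linter.defProp false
namespace Pool.Agent.Helper26.CL.C7q

open Pool.Agent.Helper86.C75 (Z)
open Pool.Agent.Helper86.CT (N3)
open Pool.Agent.Helper86.CX (Cx)
open Pool.Agent.Helper12.NKT (CovD Fm Le Lt Lt1 ck)
open Pool.Agent.Helper17.N9 (Kf)
open Pool.Agent.Helper91.BX (Bx Sb)
open Pool.Agent.Helper62.TVM (C9 C3)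
open Pool.Agent.Helper51.FR (LE)
open Pool.Agent.Helper26.SF (Sf)
open Pool.Agent.Helper82.TST (Fr)
open Pool.Agent.Helper21.SW (S9 Mu M4 SE z9)
open Pool.Agent.Helper6.MONO (fB)
open Pool.Agent.Helper6.MONO.W2.TY (r4T)
open Pool.Agent.Helper91.BX (PcG QB)
open Pool.Agent.Helper91.TMK.SW
open Pool.Agent.Helper21.TC
open Pool.Agent.Helper26.TR
def ck : ck D = true := by decide +kernel
def ce : ceK MT C = true := by decide +kernel
def le_ok : leA MT C = true := by decide +kernel
def gb : gbT C dn = true := by decide +kernel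
def r4 : r4T C.D.p C.B.A0 C.B.ra C.B.S0 C.B.rs = true := by decide +kernel

end Pool.Agent.Helper26.CL.C7q
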