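import Pool.Agent.Helper26.CL.C7q.Dat

/-!
MP_c75db0, Plan W: data of the cell C7q (written by c75_h51_cw, helper51).
-/

set_option autoImplicit false
set_option maxRecDepth 100000
set_option linter.defProp false
namespace Pool.Agent.Helper26.CL.C7q

open Pool.Agent.Helper86.C75 (Z)
open Pool.Agent.Helper86.CT (N3)
open Pool.Agent.Helper86.CX (Cx)
open Pool.Agent.Helper12.NKT (CovD Fm Le Lt Lt1 ck)
open Pool.Agent.Helper17.N9 (Kf)
open Pool.Agent.Helper91.BX (Bx Sb)
open Pool.Agent.Helper62.TVM (C9 C3)
open Pool.Agent.Helper51.FR (LE)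
open Pool.Agent.Helper26.SF (Sf)
open Pool.Agent.Helper82.TST (Fr)
open Pool.Agent.Helper21.SW (S9 Mu M4 SE z9)
open Pool.Agent.Helper6.MONO (fB)
open Pool.Agent.Helper6.MONO.W2.TY (r4T)
open Pool.Agent.Helper91.BX (PcG QB)
open Pool.Agent.Helper91.TMK.SW
open Pool.Agent.Helper21.TC
open Pool.Agent.Helper26.TR
def b2_0 : i1S (itT Tr C dn) C (nat_lit 2) v2_0 [
    [(⟨(nat_lit 89709), (Z.m (nat_lit 524672537960))⟩, ⟨(nat_lit 1172706684989606), (nat_lit 1130636290666478), (nat_lit 293527674052142), (nat_lit 269422279369170), (nat_lit 289709112455558), (nat_lit 273240840965754)⟩),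
     (⟨(nat_lit 292561), (Z.m (nat_lit 790648465098))⟩, ⟨(nat_lit 1060254513236780), (nat_lit 1009031917194156), (nat_lit 292504309696966), (nat_lit 270445643724346), (nat_lit 288047494648450), (nat_lit 274902458772862)⟩),
     (⟨(nat_lit 6131135), (Z.m (nat_lit 3694326561606))⟩, ⟨(nat_lit 3142233508844258), (nat_lit 3006187536497146), (nat_lit 291038284824738), (nat_lit 271911668596574), (nat_lit 287129149956580), (nat_lit 275820803464732)⟩),
     (⟨(nat_lit 51113), (Z.m (nat_lit 398714366339))⟩, ⟨(nat_lit 814354478289140), (nat_lit 798179492336294), (nat_lit 291872306732680), (nat_lit 271077646688632), (nat_lit 289783216950024), (nat_lit 273166736471288)⟩),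
     (⟨(nat_lit 27439), (Z.m (nat_lit 187226768579))⟩, ⟨(nat_lit 544007398852708), (nat_lit 538882326970346), (nat_lit 289384608400646), (nat_lit 273565345020666), (nat_lit 289464378101608), (nat_lit 273485575319704)⟩)]] = true := by decide +kernel
def b3_0 : i1S (itT Tr C dn) C (nat_lit 3) v3_0 [
    [(⟨(nat_lit 92444), (Z.m (nat_lit 536874729299))⟩, ⟨(nat_lit 1179067553600462), (nat_lit 1109027679629552), (nat_lit 286076912117136), (nat_lit 276873041304176), (nat_lit 290413092236628), (nat_lit 272536861184684)⟩),
     (⟨(nat_lit 303032), (Z.m (nat_lit 819005966800))⟩, ⟨(nat_lit 1003187626842754), (nat_lit 944664685169616), (nat_lit 286212179988902), (nat_lit 276737773432410), (nat_lit 288077371329322), (nat_lit 274872582091990)⟩),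
     (⟨(nat_lit 5968321), (Z.m (nat_lit 3649072235115))⟩, ⟨(nat_lit 2987784937389166), (nat_lit 2836483165869722), (nat_lit 286078567654374), (nat_lit 276871385766938), (nat_lit 287153939226556), (nat_lit 275796014194756)⟩),
     (⟨(nat_lit 41805), (Z.m (nat_lit 245658753472))⟩, ⟨(nat_lit 546236145884448), (nat_lit 536215710953098), (nat_lit 286411090270452), (nat_lit 276538863150860), (nat_lit 288978186112348), (nat_lit 273971767308964)⟩),
     (⟨(nat_lit 34506), (Z.m (nat_lit 271413393445))⟩, ⟨(nat_lit 664843813786948), (nat_lit 638950802174378), (nat_lit 285981699689516), (nat_lit 276968253731796), (nat_lit 290463879459954), (nat_lit 272486073961358)⟩)]] = true := by decide +kernel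
def b4_0 : i1S (itT Tr C dn) C (nat_lit 4) v4_0 [
    [(⟨(nat_lit 130742), (Z.m (nat_lit 430096263529))⟩, ⟨(nat_lit 16286333211578974), (nat_lit 16242377510482342), (nat_lit 287337010240736), (nat_lit 275612943180576), (nat_lit 291387804366642), (nat_lit 271562149054670)⟩),
     (⟨(nat_lit 442782), (Z.m (nat_lit 777869247925))⟩, ⟨(nat_lit 18174150456343520), (nat_lit 17894568310554350), (nat_lit 285583930171504), (nat_lit 277366023249808), (nat_lit 287326957819782), (nat_lit 275622995601530)⟩),
     (⟨(nat_lit 411918), (Z.m (nat_lit 807473838444))⟩, ⟨(nat_lit 17378274896787956), (nat_lit 17326194874219084), (nat_lit 286155906461996), (nat_lit 276794046959316), (nat_lit 288648550940754), (nat_lit 274301402480558)⟩),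
     (⟨(nat_lit 702000), (Z.m (nat_lit 765532877186))⟩, ⟨(nat_lit 8466403817739086), (nat_lit 8370738445734460), (nat_lit 285370506994564), (nat_lit 277579446426748), (nat_lit 288831065721116), (nat_lit 274118887700196)⟩),
     (⟨(nat_lit 640839), (Z.m (nat_lit 856771695333))⟩, ⟨(nat_lit 12633682006970204), (nat_lit 12369836831936624), (nat_lit 284143811886180), (nat_lit 278806141535132), (nat_lit 286443456762790), (nat_lit 276506496658522)⟩),
     (⟨(nat_lit 541296), (Z.m (nat_lit 1023769054944))⟩, ⟨(nat_lit 12399344114617154), (nat_lit 12516170741431638), (nat_lit 286584853572692), (nat_lit 276365099848622), (nat_lit 289738346268168), (nat_lit 273211607153144)⟩),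
     (⟨(nat_lit 64527), (Z.m (nat_lit 359914136489))⟩, ⟨(nat_lit 9800440483696130), (nat_lit 9893957231980286), (nat_lit 287846065219700), (nat_lit 275103888201612), (nat_lit 293234866839508), (nat_lit 269715086581804)⟩)]] = true := by decide +kernel
def b5_0 : i1S (itT Tr C dn) C (nat_lit 5) v5_0 [
    [(⟨(nat_lit 130900), (Z.m (nat_lit 434210038224))⟩, ⟨(nat_lit 16806061662891560), (nat_lit 16834771604479364), (nat_lit 288162737354140), (nat_lit 274787216067172), (nat_lit 292083820312842), (nat_lit 270866133108472)⟩),
     (⟨(nat_lit 408268), (Z.m (nat_lit 822399893479))⟩, ⟨(nat_lit 17869983729082852), (nat_lit 17938051817071504), (nat_lit 288734485496904), (nat_lit 274215467924408), (nat_lit 289101955463218), (nat_lit 273847997958094)⟩),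
     (⟨(nat_lit 444863), (Z.m (nat_lit 776496855291))⟩, ⟨(nat_lit 18767015962034432), (nat_lit 18535950912874776), (nat_lit 288212036708128), (nat_lit 274737916713184), (nat_lit 286718213961098), (nat_lit 276231739460214)⟩),
     (⟨(nat_lit 685037), (Z.m (nat_lit 761631902538))⟩, ⟨(nat_lit 8088130553398832), (nat_lit 8255934413906130), (nat_lit 286303837728398), (nat_lit 276646115692914), (nat_lit 292853956278602), (nat_lit 270095997142710)⟩),
     (⟨(nat_lit 564684), (Z.m (nat_lit 940607816792))⟩, ⟨(nat_lit 11919478501001988), (nat_lit 12138524686144072), (nat_lit 287660075341592), (nat_lit 275289878079720), (nat_lit 291078749583476), (nat_lit 271871203837836)⟩),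
     (⟨(nat_lit 609543), (Z.m (nat_lit 911676322415))⟩, ⟨(nat_lit 13979573088844184), (nat_lit 13704068915044512), (nat_lit 286293499356444), (nat_lit 276656454064868), (nat_lit 285402199214050), (nat_lit 277547754207262)⟩),
     (⟨(nat_lit 62902), (Z.m (nat_lit 373793486246))⟩, ⟨(nat_lit 10359316999971106), (nat_lit 10412271799700622), (nat_lit 287043791057092), (nat_lit 275906162364220), (nat_lit 293563808447558), (nat_lit 269386144973754)⟩)]] = true := by decide +kernel
def b6_0 : i1S (itT Tr C dn) C (nat_lit 6) v6_0 [
    [(⟨(nat_lit 76796), (Z.m (nat_lit 207556979345))⟩, ⟨(nat_lit 25501286877555132), (nat_lit 26472048122592072), (nat_lit 306728824573128), (nat_lit 256221128848184), (nat_lit 298948096483628), (nat_lit 264001856937684)⟩),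
     (⟨(nat_lit 109370), (Z.m (nat_lit 216516240809))⟩, ⟨(nat_lit 11003204588120992), (nat_lit 11544954600809520), (nat_lit 300908376825334), (nat_lit 262041576595978), (nat_lit 297385220863398), (nat_lit 265564732557914)⟩),
     (⟨(nat_lit 146242), (Z.m (nat_lit 208759581237))⟩, ⟨(nat_lit 10125375462112378), (nat_lit 11309152261360400), (nat_lit 315847065317938), (nat_lit 247102888103374), (nat_lit 311503521499840), (nat_lit 251446431921472)⟩),
     (⟨(nat_lit 13129), (Z.m (nat_lit 63153837469))⟩, ⟨(nat_lit 9470383857240648), (nat_lit 10443056740770868), (nat_lit 316622186637664), (nat_lit 246327766783648), (nat_lit 310467401485234), (nat_lit 252482551936078)⟩),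
     (⟨(nat_lit 245568), (Z.m (nat_lit 300186163025))⟩, ⟨(nat_lit 13598622130316824), (nat_lit 15983677346255380), (nat_lit 325928219050210), (nat_lit 237021734371102), (nat_lit 321861977851726), (nat_lit 241087975569586)⟩),
     (⟨(nat_lit 206223), (Z.m (nat_lit 301123463156))⟩, ⟨(nat_lit 5470084531597550), (nat_lit 5910260727070558), (nat_lit 305541946883714), (nat_lit 257408006537598), (nat_lit 302887300501454), (nat_lit 260062652919858)⟩),
     (⟨(nat_lit 32123), (Z.p (nat_lit 86363799872))⟩, ⟨(nat_lit 5103264368190258), (nat_lit 5650922196556742), (nat_lit 309106484558356), (nat_lit 253843468862956), (nat_lit 307272500230466), (nat_lit 255677453190846)⟩)]] = true := by decide +kernel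
def b6_1 : i1S (itT Tr C dn) C (nat_lit 6) v6_1 [
    [(⟨(nat_lit 101764), (Z.m (nat_lit 528318479715))⟩, ⟨(nat_lit 1861328044610802), (nat_lit 1940124156322530), (nat_lit 302482524009016), (nat_lit 260467429412296), (nat_lit 299841670970616), (nat_lit 263108282450696)⟩),
     (⟨(nat_lit 294772), (Z.m (nat_lit 868046716483))⟩, ⟨(nat_lit 1651798003438116), (nat_lit 1710437533604168), (nat_lit 297388171501686), (nat_lit 265561781919626), (nat_lit 296420162616950), (nat_lit 266529790804362)⟩),
     (⟨(nat_lit 265768), (Z.m (nat_lit 772999091366))⟩, ⟨(nat_lit 1628944929661710), (nat_lit 1684179829205548), (nat_lit 300295494955432), (nat_lit 262654458465880), (nat_lit 297268195145922), (nat_lit 265681758275390)⟩),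
     (⟨(nat_lit 5919011), (Z.m (nat_lit 3513669715400))⟩, ⟨(nat_lit 4934170438865494), (nat_lit 5076636923808196), (nat_lit 297059000232704), (nat_lit 265890953188608), (nat_lit 295199520495278), (nat_lit 267750432926034)⟩),
     (⟨(nat_lit 511609), (Z.m (nat_lit 872118940474))⟩, ⟨(nat_lit 1177495989393836), (nat_lit 1230438286544480), (nat_lit 303353002220634), (nat_lit 259596951200678), (nat_lit 299260742612474), (nat_lit 263689210808838)⟩),
     (⟨(nat_lit 34318), (Z.m (nat_lit 255344115366))⟩, ⟨(nat_lit 1042887903913626), (nat_lit 1086735761076816), (nat_lit 297866959896770), (nat_lit 265082993524542), (nat_lit 297094681056304), (nat_lit 265855272365008)⟩)]] = true := by decide +kernel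
def b6_2 : i1S (itT Tr C dn) C (nat_lit 6) v6_2 [
    [(⟨(nat_lit 48245), (Z.m (nat_lit 226838782750))⟩, ⟨(nat_lit 7085967479259298), (nat_lit 7330536068785954), (nat_lit 300083697513680), (nat_lit 262866255907632), (nat_lit 298696457972328), (nat_lit 264253495448984)⟩),
     (⟨(nat_lit 120193), (Z.m (nat_lit 519267280179))⟩, ⟨(nat_lit 10397832638981020), (nat_lit 10326239810275998), (nat_lit 296311527557454), (nat_lit 266638425863858), (nat_lit 292042979311478), (nat_lit 270906974109834)⟩),
     (⟨(nat_lit 141808), (Z.m (nat_lit 418398043696))⟩, ⟨(nat_lit 5119722475241708), (nat_lit 5160369650287790), (nat_lit 294905206223652), (nat_lit 268044747197660), (nat_lit 293451981408442), (nat_lit 269497972012870)⟩),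
     (⟨(nat_lit 280283), (Z.m (nat_lit 503658373746))⟩, ⟨(nat_lit 4096817578036534), (nat_lit 4388344936324090), (nat_lit 305123458808448), (nat_lit 257826494612864), (nat_lit 304709851251360), (nat_lit 258240102169952)⟩),
     (⟨(nat_lit 18783), (Z.m (nat_lit 108620981873))⟩, ⟨(nat_lit 2664569458340150), (nat_lit 2764233037231054), (nat_lit 297296574255166), (nat_lit 265653379166146), (nat_lit 298031353093862), (nat_lit 264918600327452)⟩)]] = true := by decide +kernel
def b6_3 : i1S (itT Tr C dn) C (nat_lit 6) v6_3 [
    [(⟨(nat_lit 36767), (Z.m (nat_lit 191147673820))⟩, ⟨(nat_lit 9790217879810946), (nat_lit 10048449586150944), (nat_lit 296107876540420), (nat_lit 266842076880894), (nat_lit 296444340089616), (nat_lit 266505613331696)⟩),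
     (⟨(nat_lit 85005), (Z.m (nat_lit 362869592518))⟩, ⟨(nat_lit 13566252399233420), (nat_lit 13233791827437318), (nat_lit 291450739400012), (nat_lit 271499214021300), (nat_lit 288618389925328), (nat_lit 274331563495984)⟩),
     (⟨(nat_lit 133999), (Z.m (nat_lit 386665547923))⟩, ⟨(nat_lit 6254319410027514), (nat_lit 6206231695204946), (nat_lit 289585177774274), (nat_lit 273364775647038), (nat_lit 290114410195528), (nat_lit 272835543225784)⟩),
     (⟨(nat_lit 298426), (Z.m (nat_lit 472729982217))⟩, ⟨(nat_lit 6172364866571156), (nat_lit 6657930183954306), (nat_lit 303528551691102), (nat_lit 259421401730210), (nat_lit 305161744771606), (nat_lit 257788208649706)⟩),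
     (⟨(nat_lit 12264), (Z.m (nat_lit 77120873839))⟩, ⟨(nat_lit 3211208898057682), (nat_lit 3287467803472562), (nat_lit 291865561051798), (nat_lit 271084392369514), (nat_lit 294770980218308), (nat_lit 268178973203004)⟩)]] = true := by decide +kernel
def b6_4 : i1S (itT Tr C dn) C (nat_lit 6) v6_4 [
    [(⟨(nat_lit 29892), (Z.m (nat_lit 172815487273))⟩, ⟨(nat_lit 12030211890456436), (nat_lit 12380343916047242), (nat_lit 294898545212122), (nat_lit 268051408209190), (nat_lit 295487752542318), (nat_lit 267462200878994)⟩),
     (⟨(nat_lit 75857), (Z.m (nat_lit 313089372323))⟩, ⟨(nat_lit 16209569698530340), (nat_lit 15804021369319582), (nat_lit 289665172426570), (nat_lit 273284780994742), (nat_lit 287076692629546), (nat_lit 275873260791766)⟩),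
     (⟨(nat_lit 123709), (Z.m (nat_lit 373600879930))⟩, ⟨(nat_lit 7218369652407882), (nat_lit 7147762909765990), (nat_lit 286672504778650), (nat_lit 276277448642662), (nat_lit 287782185053080), (nat_lit 275167768368232)⟩),
     (⟨(nat_lit 297951), (Z.m (nat_lit 454729531171))⟩, ⟨(nat_lit 7971447294809530), (nat_lit 8681046114205360), (nat_lit 304157464619636), (nat_lit 258792488801676), (nat_lit 305899406456914), (nat_lit 257050546964398)⟩),
     (⟨(nat_lit 9016), (Z.m (nat_lit 64755075453))⟩, ⟨(nat_lit 3719051569092460), (nat_lit 3797925201224726), (nat_lit 288893942781042), (nat_lit 274056010640270), (nat_lit 292315212801054), (nat_lit 270634740620258)⟩)]] = true := by decide +kernel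
def b6_5 : i1S (itT Tr C dn) C (nat_lit 6) v6_5 [
    [(⟨(nat_lit 25946), (Z.m (nat_lit 161085188972))⟩, ⟨(nat_lit 14125996346295558), (nat_lit 14706764016216644), (nat_lit 297409218506964), (nat_lit 265540734914348), (nat_lit 297166055745420), (nat_lit 265783897675892)⟩),
     (⟨(nat_lit 72108), (Z.m (nat_lit 291613387978))⟩, ⟨(nat_lit 18820194034931452), (nat_lit 18536507265108888), (nat_lit 291775170760064), (nat_lit 271174782661248), (nat_lit 288387617027284), (nat_lit 274562336394028)⟩),
     (⟨(nat_lit 117200), (Z.m (nat_lit 362220606407))⟩, ⟨(nat_lit 8256505396925684), (nat_lit 8243950124562756), (nat_lit 287731974961986), (nat_lit 275217978459326), (nat_lit 288276651613304), (nat_lit 274673301808008)⟩),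
     (⟨(nat_lit 287457), (Z.m (nat_lit 440683018324))⟩, ⟨(nat_lit 9592490395732746), (nat_lit 10610830727769524), (nat_lit 308091590646706), (nat_lit 254858362774606), (nat_lit 308810922164230), (nat_lit 254139031257082)⟩),
     (⟨(nat_lit 7525), (Z.m (nat_lit 58872533124))⟩, ⟨(nat_lit 4267384518934762), (nat_lit 4393169970421020), (nat_lit 289972374654348), (nat_lit 272977578766964), (nat_lit 292774645236144), (nat_lit 270175308185168)⟩)]] = true := by decide +kernel
def b7_0 : i1S (itT Tr C dn) C (nat_lit 7) v7_0 [
    [(⟨(nat_lit 12796), (Z.m (nat_lit 85075686182))⟩, ⟨(nat_lit 20645561687864092), (nat_lit 21205477942645816), (nat_lit 289864608076518), (nat_lit 273085345344794), (nat_lit 309494760677262), (nat_lit 253455192744050)⟩),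
     (⟨(nat_lit 79626), (Z.m (nat_lit 217532260675))⟩, ⟨(nat_lit 10992456968458058), (nat_lit 11070694442934376), (nat_lit 289566275722818), (nat_lit 273383677698494), (nat_lit 298357808412734), (nat_lit 264592145008578)⟩),
     (⟨(nat_lit 52392), (Z.m (nat_lit 170307973013))⟩, ⟨(nat_lit 26194535257567228), (nat_lit 25668391687771104), (nat_lit 288473243194298), (nat_lit 274476710227014), (nat_lit 299706271191882), (nat_lit 263243682229430)⟩),
     (⟨(nat_lit 20967), (Z.p (nat_lit 12718116451))⟩, ⟨(nat_lit 5449790742692770), (nat_lit 5624006035082858), (nat_lit 290266632344312), (nat_lit 272683321077000), (nat_lit 303855093823092), (nat_lit 259094859598220)⟩),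
     (⟨(nat_lit 9949), (Z.m (nat_lit 59171719818))⟩, ⟨(nat_lit 9719769250405982), (nat_lit 10289151895760400), (nat_lit 290832574390062), (nat_lit 272117379031250), (nat_lit 313518556949612), (nat_lit 249431396471700)⟩)]] = true := by decide +kernel
def b7_1 : i1S (itT Tr C dn) C (nat_lit 7) v7_1 [
    [(⟨(nat_lit 98822), (Z.m (nat_lit 564764271517))⟩, ⟨(nat_lit 1841646845722648), (nat_lit 1840857897495256), (nat_lit 284683937298346), (nat_lit 278266016122966), (nat_lit 302376629284524), (nat_lit 260573324136788)⟩),
     (⟨(nat_lit 282848), (Z.m (nat_lit 864686055601))⟩, ⟨(nat_lit 1601097441843826), (nat_lit 1603355914723868), (nat_lit 284987333152780), (nat_lit 277962620268532), (nat_lit 298046286870546), (nat_lit 264903666550766)⟩),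
     (⟨(nat_lit 336704), (Z.m (nat_lit 900456476388))⟩, ⟨(nat_lit 2421943584356122), (nat_lit 2403838080641230), (nat_lit 284951963684010), (nat_lit 277997989737302), (nat_lit 299495509420526), (nat_lit 263454444000786)⟩),
     (⟨(nat_lit 54910), (Z.m (nat_lit 230410250068))⟩, ⟨(nat_lit 951070190183862), (nat_lit 954757384389400), (nat_lit 284974921571856), (nat_lit 277975031849456), (nat_lit 296395631097136), (nat_lit 266554322324176)⟩),
     (⟨(nat_lit 47998), (Z.m (nat_lit 406599728375))⟩, ⟨(nat_lit 1133226163760704), (nat_lit 1138796299708692), (nat_lit 283933029959042), (nat_lit 279016923462270), (nat_lit 302124370841400), (nat_lit 260825582579912)⟩)]] = true := by decide +kernel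
def b7_2 : i1S (itT Tr C dn) C (nat_lit 7) v7_2 [
    [(⟨(nat_lit 50021), (Z.m (nat_lit 259675716041))⟩, ⟨(nat_lit 6975605976340068), (nat_lit 7065258516088254), (nat_lit 286324613553932), (nat_lit 276625339867380), (nat_lit 301041392731176), (nat_lit 261908560690136)⟩),
     (⟨(nat_lit 139941), (Z.m (nat_lit 436682679268))⟩, ⟨(nat_lit 4881763346697628), (nat_lit 4890930671892962), (nat_lit 286567263308818), (nat_lit 276382690112494), (nat_lit 295956520679244), (nat_lit 266993432742068)⟩),
     (⟨(nat_lit 124688), (Z.m (nat_lit 527978427786))⟩, ⟨(nat_lit 10053911507449704), (nat_lit 9852044759044800), (nat_lit 285581456310658), (nat_lit 277368497110654), (nat_lit 293499649895868), (nat_lit 269450303525444)⟩),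
     (⟨(nat_lit 51709), (Z.p (nat_lit 96116562450))⟩, ⟨(nat_lit 2352198379848942), (nat_lit 2408472163806330), (nat_lit 287167449804112), (nat_lit 275782503617200), (nat_lit 300549818467828), (nat_lit 262400134953484)⟩),
     (⟨(nat_lit 24608), (Z.m (nat_lit 203609217212))⟩, ⟨(nat_lit 3461138099814984), (nat_lit 3595826914423878), (nat_lit 287043813816212), (nat_lit 275906139605100), (nat_lit 305757617056884), (nat_lit 257192336364428)⟩)]] = true := by decide +kernel
def b7_3 : i1S (itT Tr C dn) C (nat_lit 7) v7_3 [
    [(⟨(nat_lit 37116), (Z.m (nat_lit 208553635806))⟩, ⟨(nat_lit 9626000847870650), (nat_lit 9738166154535152), (nat_lit 287893842156212), (nat_lit 275056111265100), (nat_lit 295536340319436), (nat_lit 267413613101876)⟩),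
     (⟨(nat_lit 132698), (Z.m (nat_lit 397074536155))⟩, ⟨(nat_lit 5903444900457196), (nat_lit 5873519128802738), (nat_lit 287925675610830), (nat_lit 275024277810482), (nat_lit 289862502868296), (nat_lit 273087450553016)⟩),
     (⟨(nat_lit 88944), (Z.m (nat_lit 364898043049))⟩, ⟨(nat_lit 13004582680338230), (nat_lit 12602045002819672), (nat_lit 286825199821558), (nat_lit 276124753599754), (nat_lit 287260785477032), (nat_lit 275689167944280)⟩),
     (⟨(nat_lit 47229), (Z.p (nat_lit 68543475391))⟩, ⟨(nat_lit 2844351220343662), (nat_lit 2900992048259126), (nat_lit 288588949731616), (nat_lit 274361003689696), (nat_lit 294551555067700), (nat_lit 268398398353612)⟩),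
     (⟨(nat_lit 21354), (Z.m (nat_lit 145841544271))⟩, ⟨(nat_lit 4583846624281122), (nat_lit 4780249596181450), (nat_lit 288840685767672), (nat_lit 274109267653640), (nat_lit 300709456396776), (nat_lit 262240497024536)⟩)]] = true := by decide +kernel

end Pool.Agent.Helper26.CL.C7q
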