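import Pool.Agent.Helper26.CL.C7q.Dat

/-!
MP_c75db0, Plan W: data of the cell C7q (written by c75_h51_cw, helper51).
-/

set_option autoImplicit false
set_option maxRecDepth 100000
set_option linter.defProp false
namespace Pool.Agent.Helper26.CL.C7q

open Pool.Agent.Helper86.C75 (Z)
open Pool.Agent.Helper86.CT (N3)
open Pool.Agent.Helper86.CX (Cx)
open Pool.Agent.Helper12.NKT (CovD Fm Le Lt Lt1 ck)
open Pool.Agent.Helper17.N9 (Kf)
open Pool.Agent.Helper91.BX (Bx Sb)
open Pool.Agent.Helper62.TVM (C9 C3)
open Pool.Agent.Helper51.FR (LE)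
open Pool.Agent.Helper26.SF (Sf)
open Pool.Agent.Helper82.TST (Fr)
open Pool.Agent.Helper21.SW (S9 Mu M4 SE z9)
open Pool.Agent.Helper6.MONO (fB)
open Pool.Agent.Helper6.MONO.W2.TY (r4T)
open Pool.Agent.Helper91.BX (PcG QB)
open Pool.Agent.Helper91.TMK.SW
open Pool.Agent.Helper21.TC
open Pool.Agent.Helper26.TR
def b7_4 : i1S (itT Tr C dn) C (nat_lit 7) v7_4 [
    [(⟨(nat_lit 30761), (Z.m (nat_lit 185655463337))⟩, ⟨(nat_lit 11967000709893524), (nat_lit 12126998569779142), (nat_lit 288687553900462), (nat_lit 274262399520850), (nat_lit 290375605299052), (nat_lit 272574348122260)⟩),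
     (⟨(nat_lit 123714), (Z.m (nat_lit 390959743096))⟩, ⟨(nat_lit 6839653313886938), (nat_lit 6804720765062862), (nat_lit 288576183973182), (nat_lit 274373769448130), (nat_lit 283391529845168), (nat_lit 279558423576144)⟩),
     (⟨(nat_lit 80156), (Z.m (nat_lit 314018208297))⟩, ⟨(nat_lit 15643923812864706), (nat_lit 15146966329473406), (nat_lit 287460741315234), (nat_lit 275489212106078), (nat_lit 281633698760374), (nat_lit 281316254660938)⟩),
     (⟨(nat_lit 42657), (Z.p (nat_lit 37652619058))⟩, ⟨(nat_lit 3333015694375716), (nat_lit 3399393962146628), (nat_lit 289252012865944), (nat_lit 273697940555368), (nat_lit 288127821298124), (nat_lit 274822132123188)⟩),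
     (⟨(nat_lit 19614), (Z.m (nat_lit 125318834532))⟩, ⟨(nat_lit 5634809930016386), (nat_lit 5887634348555620), (nat_lit 289646779418940), (nat_lit 273303174002372), (nat_lit 295117673684228), (nat_lit 267832279737084)⟩)]] = true := by decide +kernel
def b7_5 : i1S (itT Tr C dn) C (nat_lit 7) v7_5 [
    [(⟨(nat_lit 27467), (Z.m (nat_lit 172632885509))⟩, ⟨(nat_lit 14475149912294516), (nat_lit 14719986248833686), (nat_lit 289137983888184), (nat_lit 273811969533128), (nat_lit 288083815726804), (nat_lit 274866137694508)⟩),
     (⟨(nat_lit 118026), (Z.m (nat_lit 386752549421))⟩, ⟨(nat_lit 8004043144222452), (nat_lit 7986444713783992), (nat_lit 288947456785902), (nat_lit 274002496635410), (nat_lit 279798503298464), (nat_lit 283151450122848)⟩),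
     (⟨(nat_lit 77050), (Z.m (nat_lit 294309996344))⟩, ⟨(nat_lit 18652608171192232), (nat_lit 18108892136600352), (nat_lit 287835931762628), (nat_lit 275114021658684), (nat_lit 278983680040392), (nat_lit 283966273380920)⟩),
     (⟨(nat_lit 39987), (Z.p (nat_lit 22914623636))⟩, ⟨(nat_lit 3928596352461004), (nat_lit 4017827293986366), (nat_lit 289631429711360), (nat_lit 273318523709952), (nat_lit 284694961018958), (nat_lit 278254992402354)⟩),
     (⟨(nat_lit 18352), (Z.m (nat_lit 115077938618))⟩, ⟨(nat_lit 6801351853799608), (nat_lit 7130297032117016), (nat_lit 290097145310852), (nat_lit 272852808110460), (nat_lit 292445923801158), (nat_lit 270504029620154)⟩)]] = true := by decide +kernel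
def b8_0 : i1S (itT Tr C dn) C (nat_lit 8) v8_0 [
    [(⟨(nat_lit 132508), (Z.m (nat_lit 467810857794))⟩, ⟨(nat_lit 22576548435140396), (nat_lit 22455181535254648), (nat_lit 287680504612324), (nat_lit 275269448808988), (nat_lit 291089450403394), (nat_lit 271860503017918)⟩),
     (⟨(nat_lit 500276), (Z.m (nat_lit 664572538880))⟩, ⟨(nat_lit 24851573977661876), (nat_lit 24550843967590480), (nat_lit 287287219043442), (nat_lit 275662734377870), (nat_lit 287595459888336), (nat_lit 275354493532976)⟩),
     (⟨(nat_lit 464029), (Z.m (nat_lit 725690926949))⟩, ⟨(nat_lit 24237756018753428), (nat_lit 24043624109906952), (nat_lit 287013776597818), (nat_lit 275936176823494), (nat_lit 287885732815582), (nat_lit 275064220605730)⟩),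
     (⟨(nat_lit 702526), (Z.m (nat_lit 784474045500))⟩, ⟨(nat_lit 11984395917316012), (nat_lit 11857378003149338), (nat_lit 286042106492380), (nat_lit 276907846928932), (nat_lit 289535088066696), (nat_lit 273414865354616)⟩),
     (⟨(nat_lit 637604), (Z.m (nat_lit 875975303690))⟩, ⟨(nat_lit 17489866762756868), (nat_lit 17255712469972998), (nat_lit 286231505019300), (nat_lit 276718448402012), (nat_lit 287590357383572), (nat_lit 275359596037740)⟩),
     (⟨(nat_lit 578998), (Z.m (nat_lit 971044392418))⟩, ⟨(nat_lit 17643475730125626), (nat_lit 17592477907325846), (nat_lit 286397167234666), (nat_lit 276552786186646), (nat_lit 288248144898936), (nat_lit 274701808522376)⟩),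
     (⟨(nat_lit 65336), (Z.m (nat_lit 370094950158))⟩, ⟨(nat_lit 13958453041513420), (nat_lit 13986042144044874), (nat_lit 287662511499894), (nat_lit 275287441921420), (nat_lit 293027037893656), (nat_lit 269922915527656)⟩)]] = true := by decide +kernel
def b9_0 : i1S (itT Tr C dn) C (nat_lit 9) v9_0 [
    [(⟨(nat_lit 133327), (Z.m (nat_lit 466434682350))⟩, ⟨(nat_lit 22178534538335580), (nat_lit 22074077253986252), (nat_lit 287663204689638), (nat_lit 275286748731674), (nat_lit 291493790457520), (nat_lit 271456162963792)⟩),
     (⟨(nat_lit 448034), (Z.m (nat_lit 770083808996))⟩, ⟨(nat_lit 23676849358655824), (nat_lit 23547360686544268), (nat_lit 287991948454764), (nat_lit 274958004966548), (nat_lit 288011144506858), (nat_lit 274938808914454)⟩),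
     (⟨(nat_lit 490033), (Z.m (nat_lit 695822270175))⟩, ⟨(nat_lit 24306978485215700), (nat_lit 23977705173120620), (nat_lit 287252537971446), (nat_lit 275697415449866), (nat_lit 287330210302902), (nat_lit 275619743118410)⟩),
     (⟨(nat_lit 705480), (Z.m (nat_lit 767852400525))⟩, ⟨(nat_lit 11256228914170820), (nat_lit 11303239712183900), (nat_lit 286728272977114), (nat_lit 276221680444198), (nat_lit 290583734252194), (nat_lit 272366219169118)⟩),
     (⟨(nat_lit 611873), (Z.m (nat_lit 896411823794))⟩, ⟨(nat_lit 16206328981950832), (nat_lit 16256324788834300), (nat_lit 287357841194506), (nat_lit 275592112226806), (nat_lit 288737934187476), (nat_lit 274212019233836)⟩),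
     (⟨(nat_lit 610582), (Z.m (nat_lit 931372779192))⟩, ⟨(nat_lit 18310844592085188), (nat_lit 18015037589472672), (nat_lit 285963229886564), (nat_lit 276986723534748), (nat_lit 287154283167054), (nat_lit 275795670254258)⟩),
     (⟨(nat_lit 691833), (Z.m (nat_lit 791571738458))⟩, ⟨(nat_lit 12365510943147342), (nat_lit 12214098728595808), (nat_lit 285336133448016), (nat_lit 277613819973296), (nat_lit 289373068340068), (nat_lit 273576885081244)⟩),
     (⟨(nat_lit 720972), (Z.m (nat_lit 723997627367))⟩, ⟨(nat_lit 10090352928081744), (nat_lit 10063994427253904), (nat_lit 285842263298040), (nat_lit 277107690123272), (nat_lit 291208280814410), (nat_lit 271741672606902)⟩)]] = true := by decide +kernel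
def b10_0 : i1S (itT Tr C dn) C (nat_lit 10) v10_0 [
    [(⟨(nat_lit 41825), (Z.m (nat_lit 110108195267))⟩, ⟨(nat_lit 16789134000569608), (nat_lit 21832661462159812), (nat_lit 314414082248886), (nat_lit 248535871172426), (nat_lit 320315733983608), (nat_lit 242634219437704)⟩),
     (⟨(nat_lit 146726), (Z.m (nat_lit 280668818451))⟩, ⟨(nat_lit 12633719538149132), (nat_lit 15252418689080220), (nat_lit 306263464096584), (nat_lit 256686489324728), (nat_lit 305663515571948), (nat_lit 257286437849364)⟩),
     (⟨(nat_lit 153652), (Z.m (nat_lit 270033247401))⟩, ⟨(nat_lit 8936758531481658), (nat_lit 10800116380066720), (nat_lit 304082367104314), (nat_lit 258867586316998), (nat_lit 305320683851512), (nat_lit 257629269569800)⟩),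
     (⟨(nat_lit 259761), (Z.m (nat_lit 312965674734))⟩, ⟨(nat_lit 14338861268664008), (nat_lit 18552034896515824), (nat_lit 318073987915216), (nat_lit 244875965506096), (nat_lit 320437340986444), (nat_lit 242512612434868)⟩),
     (⟨(nat_lit 247899), (Z.m (nat_lit 332553591867))⟩, ⟨(nat_lit 5799206128574320), (nat_lit 7297632612010104), (nat_lit 308174613906222), (nat_lit 254775339515090), (nat_lit 313244396395214), (nat_lit 249705557026098)⟩),
     (⟨(nat_lit 25581), (Z.m (nat_lit 60181295512))⟩, ⟨(nat_lit 8416401437944132), (nat_lit 11076514904268736), (nat_lit 312728245618148), (nat_lit 250221707803164), (nat_lit 321859920066996), (nat_lit 241090033354316)⟩)]] = true := by decide +kernel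
def b10_1 : i1S (itT Tr C dn) C (nat_lit 10) v10_1 [
    [(⟨(nat_lit 115992), (Z.m (nat_lit 478808907188))⟩, ⟨(nat_lit 2016050604803084), (nat_lit 2306544701228628), (nat_lit 302201777197270), (nat_lit 260748176224042), (nat_lit 312747867777722), (nat_lit 250202085643590)⟩),
     (⟨(nat_lit 366089), (Z.m (nat_lit 809872700415))⟩, ⟨(nat_lit 2041563155702684), (nat_lit 2312597336422410), (nat_lit 301162834410396), (nat_lit 261787119010916), (nat_lit 309357442900762), (nat_lit 253592510520550)⟩),
     (⟨(nat_lit 357616), (Z.m (nat_lit 820639255661))⟩, ⟨(nat_lit 1724443960450876), (nat_lit 1947686084414800), (nat_lit 298817588576018), (nat_lit 264132364845294), (nat_lit 307725627503866), (nat_lit 255224325917446)⟩),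
     (⟨(nat_lit 547872), (Z.m (nat_lit 889729508208))⟩, ⟨(nat_lit 1856517394982794), (nat_lit 2108142198019018), (nat_lit 303032286626980), (nat_lit 259917666794332), (nat_lit 309768045685164), (nat_lit 253181907736148)⟩),
     (⟨(nat_lit 49775), (Z.m (nat_lit 226276523102))⟩, ⟨(nat_lit 1377751715225584), (nat_lit 1581286686519542), (nat_lit 301812790998256), (nat_lit 261137162423056), (nat_lit 312724632164860), (nat_lit 250225321256452)⟩)]] = true := by decide +kernel
def b10_2 : i1S (itT Tr C dn) C (nat_lit 10) v10_2 [
    [(⟨(nat_lit 53092), (Z.m (nat_lit 192838429368))⟩, ⟨(nat_lit 7233109154547628), (nat_lit 7983197879773318), (nat_lit 298441656206426), (nat_lit 264508297214886), (nat_lit 306959487155454), (nat_lit 255990466265858)⟩),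
     (⟨(nat_lit 146967), (Z.m (nat_lit 471276763737))⟩, ⟨(nat_lit 6208537516520360), (nat_lit 6540353755858396), (nat_lit 294918826090886), (nat_lit 268031127330426), (nat_lit 298813119501220), (nat_lit 264136833920092)⟩),
     (⟨(nat_lit 150956), (Z.m (nat_lit 429993758570))⟩, ⟨(nat_lit 4448285574147972), (nat_lit 4706900113104970), (nat_lit 293178498522412), (nat_lit 269771454898900), (nat_lit 299862917017648), (nat_lit 263087036403664)⟩),
     (⟨(nat_lit 236759), (Z.m (nat_lit 517780468121))⟩, ⟨(nat_lit 6312880885886432), (nat_lit 6898554769219632), (nat_lit 301265183834618), (nat_lit 261684769586694), (nat_lit 304096431458100), (nat_lit 258853521963212)⟩),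
     (⟨(nat_lit 15391), (Z.m (nat_lit 148812617055))⟩, ⟨(nat_lit 3676350290389736), (nat_lit 3984792501008776), (nat_lit 293997481529816), (nat_lit 268952471891496), (nat_lit 304231748973240), (nat_lit 258718204448072)⟩)]] = true := by decide +kernel
def b10_3 : i1S (itT Tr C dn) C (nat_lit 10) v10_3 [
    [(⟨(nat_lit 41358), (Z.m (nat_lit 166862560637))⟩, ⟨(nat_lit 9845245115303248), (nat_lit 10884548686335348), (nat_lit 297318313867134), (nat_lit 265631639554178), (nat_lit 303576691651054), (nat_lit 259373261770258)⟩),
     (⟨(nat_lit 130625), (Z.m (nat_lit 405093555108))⟩, ⟨(nat_lit 7618557231983270), (nat_lit 7933777388379938), (nat_lit 292005781055612), (nat_lit 270944172365702), (nat_lit 293364947735084), (nat_lit 269585005686228)⟩),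
     (⟨(nat_lit 140939), (Z.m (nat_lit 400711126066))⟩, ⟨(nat_lit 5387014639626750), (nat_lit 5633332601511548), (nat_lit 290307426919318), (nat_lit 272642526501994), (nat_lit 294261932738768), (nat_lit 268688020682544)⟩),
     (⟨(nat_lit 218606), (Z.m (nat_lit 433321268399))⟩, ⟨(nat_lit 8558983175018900), (nat_lit 9378465426053662), (nat_lit 300394378831196), (nat_lit 262555574590116), (nat_lit 301557229202666), (nat_lit 261392724218646)⟩),
     (⟨(nat_lit 8798), (Z.m (nat_lit 91668548399))⟩, ⟨(nat_lit 4505519437942182), (nat_lit 4825642801076958), (nat_lit 291192806263372), (nat_lit 271757147157940), (nat_lit 298502784341240), (nat_lit 264447169080072)⟩)]] = true := by decide +kernel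
def b10_4 : i1S (itT Tr C dn) C (nat_lit 10) v10_4 [
    [(⟨(nat_lit 36763), (Z.m (nat_lit 155937424224))⟩, ⟨(nat_lit 11995769966657772), (nat_lit 13656397096881856), (nat_lit 299791693485888), (nat_lit 263158259935424), (nat_lit 304990473071582), (nat_lit 257959480349730)⟩),
     (⟨(nat_lit 124160), (Z.m (nat_lit 397183661635))⟩, ⟨(nat_lit 9006853389752284), (nat_lit 9571445449762614), (nat_lit 292969677252284), (nat_lit 269980276169028), (nat_lit 292719345195718), (nat_lit 270230608225594)⟩),
     (⟨(nat_lit 133794), (Z.m (nat_lit 410133492933))⟩, ⟨(nat_lit 6346070054037126), (nat_lit 6759968589365550), (nat_lit 291048792722334), (nat_lit 271901160698978), (nat_lit 293118614728624), (nat_lit 269831338692688)⟩),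
     (⟨(nat_lit 217993), (Z.m (nat_lit 412877211843))⟩, ⟨(nat_lit 10391233863934788), (nat_lit 11759485506466392), (nat_lit 303269873928962), (nat_lit 259680079492350), (nat_lit 303938604809902), (nat_lit 259011348611410)⟩),
     (⟨(nat_lit 6978), (Z.m (nat_lit 74060480502))⟩, ⟨(nat_lit 5344469185516904), (nat_lit 5837392266744458), (nat_lit 292225444799176), (nat_lit 270724508622136), (nat_lit 297587851686924), (nat_lit 265362101734388)⟩)]] = true := by decide +kernel
def b10_5 : i1S (itT Tr C dn) C (nat_lit 10) v10_5 [
    [(⟨(nat_lit 34724), (Z.m (nat_lit 149169892018))⟩, ⟨(nat_lit 13477858202776266), (nat_lit 15986919915632356), (nat_lit 304394833881646), (nat_lit 258555119539666), (nat_lit 310024270643066), (nat_lit 252925682778246)⟩),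
     (⟨(nat_lit 120575), (Z.m (nat_lit 390453216907))⟩, ⟨(nat_lit 10080839905298504), (nat_lit 11114330215992222), (nat_lit 296794927463820), (nat_lit 266155025957492), (nat_lit 296569953700476), (nat_lit 266379999720836)⟩),
     (⟨(nat_lit 129561), (Z.m (nat_lit 407061945828))⟩, ⟨(nat_lit 7105706629464534), (nat_lit 7845210266640038), (nat_lit 294728427452568), (nat_lit 268221525968744), (nat_lit 296653427190838), (nat_lit 266296526230474)⟩),
     (⟨(nat_lit 215699), (Z.m (nat_lit 401796554372))⟩, ⟨(nat_lit 11628869005451562), (nat_lit 13728349651479904), (nat_lit 308044741284892), (nat_lit 254905212136420), (nat_lit 309489635848664), (nat_lit 253460317572648)⟩),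
     (⟨(nat_lit 6367), (Z.m (nat_lit 67628317382))⟩, ⟨(nat_lit 5995365489340922), (nat_lit 6792947788562984), (nat_lit 296092837786764), (nat_lit 266857115634548), (nat_lit 301321522659952), (nat_lit 261628430761360)⟩)]] = true := by decide +kernel
def b11_0 : i1S (itT Tr C dn) C (nat_lit 11) v11_0 [
    [(⟨(nat_lit 39861), (Z.m (nat_lit 120238598289))⟩, ⟨(nat_lit 18562270608886136), (nat_lit 23358870519193160), (nat_lit 298232460864496), (nat_lit 264717492556816), (nat_lit 320585407641768), (nat_lit 242364545779544)⟩),
     (⟨(nat_lit 140155), (Z.m (nat_lit 294417170139))⟩, ⟨(nat_lit 9483515645390792), (nat_lit 11262308735168694), (nat_lit 294896264581520), (nat_lit 268053688839792), (nat_lit 305713431929642), (nat_lit 257236521491670)⟩),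
     (⟨(nat_lit 133716), (Z.m (nat_lit 289858115915))⟩, ⟨(nat_lit 13418180033051228), (nat_lit 15758653082624686), (nat_lit 293530288439038), (nat_lit 269419664982274), (nat_lit 305487663515504), (nat_lit 257462289905808)⟩),
     (⟨(nat_lit 36721), (Z.p (nat_lit 16397451424))⟩, ⟨(nat_lit 7267577517864252), (nat_lit 8945197494703598), (nat_lit 297642016237154), (nat_lit 265307937184158), (nat_lit 312417169881420), (nat_lit 250532783539892)⟩),
     (⟨(nat_lit 237732), (Z.m (nat_lit 336293141619))⟩, ⟨(nat_lit 16993199936493778), (nat_lit 20864069354063712), (nat_lit 295415186112930), (nat_lit 267534767308382), (nat_lit 319356093343526), (nat_lit 243593860077786)⟩),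
     (⟨(nat_lit 315496), (Z.m (nat_lit 319038114281))⟩, ⟨(nat_lit 10403861123114920), (nat_lit 14361683912815164), (nat_lit 304713859641164), (nat_lit 258236093780148), (nat_lit 339929779353918), (nat_lit 223020174067394)⟩)]] = true := by decide +kernel
def b11_1 : i1S (itT Tr C dn) C (nat_lit 11) v11_1 [
    [(⟨(nat_lit 114429), (Z.m (nat_lit 489861033967))⟩, ⟨(nat_lit 2035749845226744), (nat_lit 2267350271194398), (nat_lit 291640276782034), (nat_lit 271309676639278), (nat_lit 313752106034052), (nat_lit 249197847387260)⟩),
     (⟨(nat_lit 357568), (Z.m (nat_lit 822343854506))⟩, ⟨(nat_lit 1725088479233860), (nat_lit 1905193597022904), (nat_lit 291181459929836), (nat_lit 271768493491476), (nat_lit 307534596701662), (nat_lit 255415356719650)⟩),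
     (⟨(nat_lit 376166), (Z.m (nat_lit 801033709527))⟩, ⟨(nat_lit 2053089138474970), (nat_lit 2264152179169126), (nat_lit 290763516838046), (nat_lit 272186436583266), (nat_lit 309357033046776), (nat_lit 253592920374536)⟩),
     (⟨(nat_lit 69413), (Z.m (nat_lit 208816621369))⟩, ⟨(nat_lit 1392894220620944), (nat_lit 1544704403991448), (nat_lit 291786344952302), (nat_lit 271163608469010), (nat_lit 307298068969020), (nat_lit 255651884452292)⟩),
     (⟨(nat_lit 519210), (Z.m (nat_lit 913918336150))⟩, ⟨(nat_lit 2007227067226726), (nat_lit 2208499659708184), (nat_lit 289978158319312), (nat_lit 272971795102000), (nat_lit 310225164298804), (nat_lit 252724789122508)⟩),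
     (⟨(nat_lit 557094), (Z.m (nat_lit 778248768586))⟩, ⟨(nat_lit 1171574151567682), (nat_lit 1313147003400636), (nat_lit 291413993918512), (nat_lit 271535959502800), (nat_lit 312919990138214), (nat_lit 250029963283098)⟩)]] = true := by decide +kernel
def b11_2 : i1S (itT Tr C dn) C (nat_lit 11) v11_2 [
    [(⟨(nat_lit 53157), (Z.m (nat_lit 203829110994))⟩, ⟨(nat_lit 7355423925626394), (nat_lit 7942426267616502), (nat_lit 290719737449368), (nat_lit 272230215971944), (nat_lit 307561953373396), (nat_lit 255388000047916)⟩),
     (⟨(nat_lit 152703), (Z.m (nat_lit 394570039724))⟩, ⟨(nat_lit 4404146198845382), (nat_lit 4608316786538128), (nat_lit 289396103373384), (nat_lit 273553850047928), (nat_lit 300805132442894), (nat_lit 262144820978418)⟩),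
     (⟨(nat_lit 146477), (Z.m (nat_lit 457949487720))⟩, ⟨(nat_lit 6178316432515652), (nat_lit 6379525673636264), (nat_lit 287896561721722), (nat_lit 275053391699590), (nat_lit 299220770546088), (nat_lit 263729182875224)⟩),
     (⟨(nat_lit 40245), (Z.m (nat_lit 51377850006))⟩, ⟨(nat_lit 3250833878668826), (nat_lit 3495636679541196), (nat_lit 291520093939692), (nat_lit 271429859481620), (nat_lit 305452755681338), (nat_lit 257497197739974)⟩),
     (⟨(nat_lit 223335), (Z.m (nat_lit 537956154296))⟩, ⟨(nat_lit 6976000113306734), (nat_lit 7333962061866380), (nat_lit 287863252093364), (nat_lit 275086701327948), (nat_lit 303385832833350), (nat_lit 259564120587962)⟩),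
     (⟨(nat_lit 290403), (Z.m (nat_lit 456157826522))⟩, ⟨(nat_lit 3714373328917064), (nat_lit 4238701564074582), (nat_lit 294258698871658), (nat_lit 268691254549654), (nat_lit 316019429290234), (nat_lit 246930524131078)⟩)]] = true := by decide +kernel
def b11_3 : i1S (itT Tr C dn) C (nat_lit 11) v11_3 [
    [(⟨(nat_lit 42520), (Z.m (nat_lit 176353229549))⟩, ⟨(nat_lit 10204776814755924), (nat_lit 10985922986675360), (nat_lit 290586828681396), (nat_lit 272363124739916), (nat_lit 301881019031296), (nat_lit 261068934390016)⟩),
     (⟨(nat_lit 146421), (Z.m (nat_lit 401771229215))⟩, ⟨(nat_lit 5393088192689798), (nat_lit 5570310896629652), (nat_lit 288627631848488), (nat_lit 274322321572824), (nat_lit 293206694435826), (nat_lit 269743258985486)⟩),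
     (⟨(nat_lit 133427), (Z.m (nat_lit 408168636728))⟩, ⟨(nat_lit 7639026456743610), (nat_lit 7782683132205590), (nat_lit 287077917118132), (nat_lit 275872036303180), (nat_lit 291779333774526), (nat_lit 271170619646786)⟩),
     (⟨(nat_lit 37625), (Z.m (nat_lit 26035172850))⟩, ⟨(nat_lit 4067066347839002), (nat_lit 4330829755156530), (nat_lit 290927551869194), (nat_lit 272022401552118), (nat_lit 298321643358922), (nat_lit 264628310062390)⟩),
     (⟨(nat_lit 206073), (Z.m (nat_lit 449506119367))⟩, ⟨(nat_lit 9525323409528218), (nat_lit 9974781942284156), (nat_lit 287600344929730), (nat_lit 275349608491582), (nat_lit 298566198865214), (nat_lit 264383754556100)⟩),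
     (⟨(nat_lit 334717), (Z.m (nat_lit 437013290395))⟩, ⟨(nat_lit 5594007006119390), (nat_lit 6482353178402688), (nat_lit 295441700076270), (nat_lit 267508253345042), (nat_lit 314761066790418), (nat_lit 248188886630894)⟩)]] = true := by decide +kernel

end Pool.Agent.Helper26.CL.C7q
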