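import Pool.Agent.Helper26.CL.C7q.B
import Pool.Agent.Helper26.CL.C7q.J
import Pool.Agent.Helper26.CL.C7q.I0
import Pool.Agent.Helper26.CL.C7q.I1
import Pool.Agent.Helper26.CL.C7q.I2
import Pool.Agent.Helper26.CL.C7q.I3
import Pool.Agent.Helper26.CL.C7q.I4
import Pool.Agent.Helper26.CL.C7q.I5
import Pool.Agent.Helper26.CL.C7q.I6
import Pool.Agent.Helper26.CL.C7q.I7
import Pool.Agent.Helper26.CL.C7q.I8
import Pool.Agent.Helper26.CL.C7q.I9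
import Pool.Agent.Helper17.N9.N9Y

/-!
MP_c75db0, Plan W: data of the cell C7q (written by c75_h51_cw, helper51).
-/

set_option autoImplicit false
set_option maxRecDepth 100000
set_option linter.defProp false
namespace Pool.Agent.Helper26.CL.C7q

open Pool.Agent.Helper86.C75 (Z)
open Pool.Agent.Helper86.CT (N3)
open Pool.Agent.Helper86.CX (Cx)
open Pool.Agent.Helper12.NKT (CovD Fm Le Lt Lt1 ck)
open Pool.Agent.Helper17.N9 (Kf)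
open Pool.Agent.Helper91.BX (Bx Sb)
open Pool.Agent.Helper62.TVM (C9 C3)
open Pool.Agent.Helper51.FR (LE)
open Pool.Agent.Helper26.SF (Sf)
open Pool.Agent.Helper82.TST (Fr)
open Pool.Agent.Helper21.SW (S9 Mu M4 SE z9)
open Pool.Agent.Helper6.MONO (fB)
open Pool.Agent.Helper6.MONO.W2.TY (r4T)
open Pool.Agent.Helper91.BX (PcG QB)
open Pool.Agent.Helper91.TMK.SW
open Pool.Agent.Helper21.TC
open Pool.Agent.Helper26.TR

theorem A2 : ItsK MT (itT Tr C dn) C (nat_lit 2) (t2_0 ++ ([])) :=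
  .app (itS_ok a2_0) (.nil)
theorem A3 : ItsK MT (itT Tr C dn) C (nat_lit 3) (t3_0 ++ ([])) :=
  .app (itS_ok a3_0) (.nil)
theorem A5 : ItsK MT (itT Tr C dn) C (nat_lit 5) (t5_0 ++ ([])) :=
  .app (itS_ok a5_0) (.nil)
theorem A6 : ItsK MT (itT Tr C dn) C (nat_lit 6) (t6_0 ++ (t6_1 ++ (t6_2 ++ (t6_3 ++ (t6_4 ++ (t6_5 ++ (t6_6 ++ (t6_7 ++ ([]))))))))) :=
  .app (itS_ok a6_0) (.app (itS_ok a6_1) (.app (itS_ok a6_2) (.app (itS_ok a6_3) (.app (itS_ok a6_4) (.app (itS_ok a6_5) (.app (itS_ok a6_6) (.app (itS_ok a6_7) (.nil))))))))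
theorem A7 : ItsK MT (itT Tr C dn) C (nat_lit 7) (t7_0 ++ (t7_1 ++ (t7_2 ++ (t7_3 ++ (t7_4 ++ (t7_5 ++ (t7_6 ++ (t7_7 ++ ([]))))))))) :=
  .app (itS_ok a7_0) (.app (itS_ok a7_1) (.app (itS_ok a7_2) (.app (itS_ok a7_3) (.app (itS_ok a7_4) (.app (itS_ok a7_5) (.app (itS_ok a7_6) (.app (itS_ok a7_7) (.nil))))))))
theorem A9 : ItsK MT (itT Tr C dn) C (nat_lit 9) (t9_0 ++ ([])) :=
  .app (itS_ok a9_0) (.nil)
theorem A10 : ItsK MT (itT Tr C dn) C (nat_lit 10) (t10_0 ++ (t10_1 ++ (t10_2 ++ (t10_3 ++ (t10_4 ++ (t10_5 ++ (t10_6 ++ (t10_7 ++ ([]))))))))) :=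
  .app (itS_ok a10_0) (.app (itS_ok a10_1) (.app (itS_ok a10_2) (.app (itS_ok a10_3) (.app (itS_ok a10_4) (.app (itS_ok a10_5) (.app (itS_ok a10_6) (.app (itS_ok a10_7) (.nil))))))))
theorem A11 : ItsK MT (itT Tr C dn) C (nat_lit 11) (t11_0 ++ (t11_1 ++ (t11_2 ++ (t11_3 ++ (t11_4 ++ (t11_5 ++ (t11_6 ++ (t11_7 ++ ([]))))))))) :=
  .app (itS_ok a11_0) (.app (itS_ok a11_1) (.app (itS_ok a11_2) (.app (itS_ok a11_3) (.app (itS_ok a11_4) (.app (itS_ok a11_5) (.app (itS_ok a11_6) (.app (itS_ok a11_7) (.nil))))))))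
theorem A13 : ItsK MT (itT Tr C dn) C (nat_lit 13) (t13_0 ++ ([])) :=
  .app (itS_ok a13_0) (.nil)
theorem A14 : ItsK MT (itT Tr C dn) C (nat_lit 14) (t14_0 ++ (t14_1 ++ (t14_2 ++ (t14_3 ++ (t14_4 ++ (t14_5 ++ (t14_6 ++ (t14_7 ++ ([]))))))))) :=
  .app (itS_ok a14_0) (.app (itS_ok a14_1) (.app (itS_ok a14_2) (.app (itS_ok a14_3) (.app (itS_ok a14_4) (.app (itS_ok a14_5) (.app (itS_ok a14_6) (.app (itS_ok a14_7) (.nil))))))))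
theorem A34 : ItsK MT (itT Tr C dn) C (nat_lit 34) (t34_0 ++ (t34_1 ++ (t34_2 ++ (t34_3 ++ (t34_4 ++ ([])))))) :=
  .app (itS_ok a34_0) (.app (itS_ok a34_1) (.app (itS_ok a34_2) (.app (itS_ok a34_3) (.app (itS_ok a34_4) (.nil)))))
theorem A35 : ItsK MT (itT Tr C dn) C (nat_lit 35) (t35_0 ++ (t35_1 ++ (t35_2 ++ (t35_3 ++ (t35_4 ++ ([])))))) :=
  .app (itS_ok a35_0) (.app (itS_ok a35_1) (.app (itS_ok a35_2) (.app (itS_ok a35_3) (.app (itS_ok a35_4) (.nil)))))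
theorem B2 : IvsK (itT Tr C dn) C (nat_lit 2) (v2_0 ++ ([])) :=
  .app (i1S_ok b2_0) (.nil)
theorem B3 : IvsK (itT Tr C dn) C (nat_lit 3) (v3_0 ++ ([])) :=
  .app (i1S_ok b3_0) (.nil)
theorem B4 : IvsK (itT Tr C dn) C (nat_lit 4) (v4_0 ++ ([])) :=
  .app (i1S_ok b4_0) (.nil)
theorem B5 : IvsK (itT Tr C dn) C (nat_lit 5) (v5_0 ++ ([])) :=
  .app (i1S_ok b5_0) (.nil)
theorem B6 : IvsK (itT Tr C dn) C (nat_lit 6) (v6_0 ++ (v6_1 ++ (v6_2 ++ (v6_3 ++ (v6_4 ++ (v6_5 ++ ([]))))))) :=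
  .app (i1S_ok b6_0) (.app (i1S_ok b6_1) (.app (i1S_ok b6_2) (.app (i1S_ok b6_3) (.app (i1S_ok b6_4) (.app (i1S_ok b6_5) (.nil))))))
theorem B7 : IvsK (itT Tr C dn) C (nat_lit 7) (v7_0 ++ (v7_1 ++ (v7_2 ++ (v7_3 ++ (v7_4 ++ (v7_5 ++ ([]))))))) :=
  .app (i1S_ok b7_0) (.app (i1S_ok b7_1) (.app (i1S_ok b7_2) (.app (i1S_ok b7_3) (.app (i1S_ok b7_4) (.app (i1S_ok b7_5) (.nil))))))
theorem B8 : IvsK (itT Tr C dn) C (nat_lit 8) (v8_0 ++ ([])) :=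
  .app (i1S_ok b8_0) (.nil)
theorem B9 : IvsK (itT Tr C dn) C (nat_lit 9) (v9_0 ++ ([])) :=
  .app (i1S_ok b9_0) (.nil)
theorem B10 : IvsK (itT Tr C dn) C (nat_lit 10) (v10_0 ++ (v10_1 ++ (v10_2 ++ (v10_3 ++ (v10_4 ++ (v10_5 ++ ([]))))))) :=
  .app (i1S_ok b10_0) (.app (i1S_ok b10_1) (.app (i1S_ok b10_2) (.app (i1S_ok b10_3) (.app (i1S_ok b10_4) (.app (i1S_ok b10_5) (.nil))))))
theorem B11 : IvsK (itT Tr C dn) C (nat_lit 11) (v11_0 ++ (v11_1 ++ (v11_2 ++ (v11_3 ++ (v11_4 ++ (v11_5 ++ ([]))))))) :=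
  .app (i1S_ok b11_0) (.app (i1S_ok b11_1) (.app (i1S_ok b11_2) (.app (i1S_ok b11_3) (.app (i1S_ok b11_4) (.app (i1S_ok b11_5) (.nil))))))
theorem B12 : IvsK (itT Tr C dn) C (nat_lit 12) (v12_0 ++ ([])) :=
  .app (i1S_ok b12_0) (.nil)
theorem B13 : IvsK (itT Tr C dn) C (nat_lit 13) (v13_0 ++ ([])) :=
  .app (i1S_ok b13_0) (.nil)
theorem B14 : IvsK (itT Tr C dn) C (nat_lit 14) (v14_0 ++ (v14_1 ++ (v14_2 ++ (v14_3 ++ (v14_4 ++ (v14_5 ++ ([]))))))) :=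
  .app (i1S_ok b14_0) (.app (i1S_ok b14_1) (.app (i1S_ok b14_2) (.app (i1S_ok b14_3) (.app (i1S_ok b14_4) (.app (i1S_ok b14_5) (.nil))))))
theorem B34 : IvsK (itT Tr C dn) C (nat_lit 34) (v34_0 ++ (v34_1 ++ (v34_2 ++ (v34_3 ++ (v34_4 ++ ([])))))) :=
  .app (i1S_ok b34_0) (.app (i1S_ok b34_1) (.app (i1S_ok b34_2) (.app (i1S_ok b34_3) (.app (i1S_ok b34_4) (.nil)))))
theorem B35 : IvsK (itT Tr C dn) C (nat_lit 35) (v35_0 ++ (v35_1 ++ (v35_2 ++ (v35_3 ++ (v35_4 ++ ([])))))) :=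
  .app (i1S_ok b35_0) (.app (i1S_ok b35_1) (.app (i1S_ok b35_2) (.app (i1S_ok b35_3) (.app (i1S_ok b35_4) (.nil)))))
theorem itA : ItsA MT (itT Tr C dn) C it :=
  .cons A2 (.cons A3 (.cons A5 (.cons A6 (.cons A7 (.cons A9 (.cons A10 (.cons A11 (.cons A13 (.cons A14 (.cons A34 (.cons A35 (.nil))))))))))))
theorem ivA : IvsA (itT Tr C dn) C i1 :=
  .cons B2 (.cons B3 (.cons B4 (.cons B5 (.cons B6 (.cons B7 (.cons B8 (.cons B9 (.cons B10 (.cons B11 (.cons B12 (.cons B13 (.cons B14 (.cons B34 (.cons B35 (.nil)))))))))))))))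
theorem cel : CelT Tr C dn ms E := ⟨ck, ce, le_ok, gb, itA, ivA, ic, se⟩
theorem pc (Q : ℕ → ℕ → ℝ → Prop) (m : ℝ) :
    PcG Q (nat_lit 7) m (nat_lit 1077204735871680) (nat_lit 1101552321357152) (nat_lit 0) (nat_lit 0) (nat_lit 140737488355328) (nat_lit 0) ⟨false, (Z.p (nat_lit 0)), (Z.p (nat_lit 0)), (Z.p (nat_lit 0))⟩ (nat_lit 28147497671066) ⟨false, (Z.p (nat_lit 0)), (Z.p (nat_lit 0)), (Z.p (nat_lit 0))⟩ (nat_lit 70368744177664) :=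
  cel.pc Pool.Agent.Helper17.N9.Tr_ok r4 (fun _ _ _ _ h => absurd h (by decide))

end Pool.Agent.Helper26.CL.C7q
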