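import Pool.Agent.Helper26.CL.C7q.Dat

/-!
MP_c75db0, Plan W: data of the cell C7q (written by c75_h51_cw, helper51).
-/

set_option autoImplicit false
set_option maxRecDepth 100000
set_option linter.defProp false
namespace Pool.Agent.Helper26.CL.C7q

open Pool.Agent.Helper86.C75 (Z)
open Pool.Agent.Helper86.CT (N3)
open Pool.Agent.Helper86.CX (Cx)
open Pool.Agent.Helper12.NKT (CovD Fm Le Lt Lt1 ck)
open Pool.Agent.Helper17.N9 (Kf)
open Pool.Agent.Helper91.BX (Bx Sb)
open Pool.Agent.Helper62.TVM (C9 C3)
open Pool.Agent.Helper51.FR (LE)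
open Pool.Agent.Helper26.SF (Sf)
open Pool.Agent.Helper82.TST (Fr)
open Pool.Agent.Helper21.SW (S9 Mu M4 SE z9)
open Pool.Agent.Helper6.MONO (fB)
open Pool.Agent.Helper6.MONO.W2.TY (r4T)
open Pool.Agent.Helper91.BX (PcG QB)
open Pool.Agent.Helper91.TMK.SW
open Pool.Agent.Helper21.TC
open Pool.Agent.Helper26.TR
def b34_3 : i1S (itT Tr C dn) C (nat_lit 34) v34_3 [
    [(⟨(nat_lit 9460), (Z.m (nat_lit 146304612301))⟩, ⟨(nat_lit 1642859483065075456), (nat_lit 1717423280036806912), (nat_lit 289019986869844), (nat_lit 273929966551468), (nat_lit 296111386500318), (nat_lit 266838566920994)⟩),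
     (⟨(nat_lit 64068), (Z.m (nat_lit 272912132529))⟩, ⟨(nat_lit 1834119455586054656), (nat_lit 1851167507838469888), (nat_lit 285401225650738), (nat_lit 277548727770574), (nat_lit 293039227194234), (nat_lit 269910726227078)⟩),
     (⟨(nat_lit 8335), (Z.m (nat_lit 90556918662))⟩, ⟨(nat_lit 849462170447315200), (nat_lit 899265518545249792), (nat_lit 291481604839798), (nat_lit 271468348581514), (nat_lit 297769936399832), (nat_lit 265180017021480)⟩),
     (⟨(nat_lit 205190), (Z.m (nat_lit 473081746032))⟩, ⟨(nat_lit 582178060397688192), (nat_lit 599307076901703552), (nat_lit 288863094205026), (nat_lit 274086859216286), (nat_lit 295316874579554), (nat_lit 267633078841758)⟩),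
     (⟨(nat_lit 45181), (Z.p (nat_lit 163756040208))⟩, ⟨(nat_lit 308614735138415488), (nat_lit 321826752508323264), (nat_lit 289789594398210), (nat_lit 273160359023102), (nat_lit 296340976349892), (nat_lit 266608977071420)⟩)]] = true := by decide +kernel
def b34_4 : i1S (itT Tr C dn) C (nat_lit 34) v34_4 [
    [(⟨(nat_lit 44683), (Z.m (nat_lit 220871426628))⟩, ⟨(nat_lit 1964459109867202048), (nat_lit 2190708578055580928), (nat_lit 273654980823062), (nat_lit 289294972598250), (nat_lit 293948065697046), (nat_lit 269001887724266)⟩),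
     (⟨(nat_lit 57386), (Z.m (nat_lit 210727789772))⟩, ⟨(nat_lit 1134709699930888960), (nat_lit 1318521779844081920), (nat_lit 281600638439576), (nat_lit 281349314981736), (nat_lit 298840611399134), (nat_lit 264109342022178)⟩),
     (⟨(nat_lit 43642), (Z.m (nat_lit 200825680599))⟩, ⟨(nat_lit 1274142530963995904), (nat_lit 1449533432017582592), (nat_lit 274904808175338), (nat_lit 288045145245974), (nat_lit 295470391177440), (nat_lit 267479562243872)⟩),
     (⟨(nat_lit 8215), (Z.m (nat_lit 79170264740))⟩, ⟨(nat_lit 423245958533265984), (nat_lit 490286262339675136), (nat_lit 278510098900908), (nat_lit 284439854520404), (nat_lit 297607701880310), (nat_lit 265342251541002)⟩),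
     (⟨(nat_lit 225192), (Z.m (nat_lit 326012201120))⟩, ⟨(nat_lit 456927812709242368), (nat_lit 531614850988822144), (nat_lit 278590098251618), (nat_lit 284359855169694), (nat_lit 297961604569502), (nat_lit 264988348851810)⟩),
     (⟨(nat_lit 110864), (Z.m (nat_lit 316112704684))⟩, ⟨(nat_lit 1744341621720978688), (nat_lit 2061817582484155904), (nat_lit 280738774514632), (nat_lit 282211178906680), (nat_lit 299573409001632), (nat_lit 263376544419680)⟩),
     (⟨(nat_lit 180240), (Z.m (nat_lit 337044697414))⟩, ⟨(nat_lit 614249882304149632), (nat_lit 698815872064711808), (nat_lit 277365915568990), (nat_lit 285584037852322), (nat_lit 296299276115278), (nat_lit 266650677306034)⟩),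
     (⟨(nat_lit 35465), (Z.p (nat_lit 162184120159))⟩, ⟨(nat_lit 328992030690056384), (nat_lit 379075047259310144), (nat_lit 278308059390454), (nat_lit 284641894030858), (nat_lit 297318113327658), (nat_lit 265631840093654)⟩)]] = true := by decide +kernel
def b35_0 : i1S (itT Tr C dn) C (nat_lit 35) v35_0 [
    [(⟨(nat_lit 208700), (Z.m (nat_lit 486555842351))⟩, ⟨(nat_lit 644400868173683712), (nat_lit 627288324812668416), (nat_lit 282742489063252), (nat_lit 280207464358060), (nat_lit 281267416416748), (nat_lit 281682537004566)⟩),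
     (⟨(nat_lit 19116), (Z.m (nat_lit 310728556551))⟩, ⟨(nat_lit 491680892095944128), (nat_lit 494700139081431104), (nat_lit 280188225840678), (nat_lit 282761727580634), (nat_lit 286786057959606), (nat_lit 276163895461706)⟩),
     (⟨(nat_lit 199448), (Z.m (nat_lit 767653249666))⟩, ⟨(nat_lit 795393521629073024), (nat_lit 784303417315656576), (nat_lit 281684786558728), (nat_lit 281265166862584), (nat_lit 284683591517730), (nat_lit 278266361903582)⟩),
     (⟨(nat_lit 5322514), (Z.m (nat_lit 3377727939040))⟩, ⟨(nat_lit 2063812535089884416), (nat_lit 2016202000424496128), (nat_lit 284320161824900), (nat_lit 278629791596412), (nat_lit 283941042077324), (nat_lit 279008911343988)⟩),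
     (⟨(nat_lit 32868), (Z.m (nat_lit 126764849410))⟩, ⟨(nat_lit 324821260920391232), (nat_lit 326069324138634304), (nat_lit 281643781460076), (nat_lit 281306171961236), (nat_lit 286163386738330), (nat_lit 276786566682982)⟩),
     (⟨(nat_lit 306562), (Z.m (nat_lit 1061242677653))⟩, ⟨(nat_lit 933610350253609216), (nat_lit 946533192652395904), (nat_lit 280462380789742), (nat_lit 282487572631570), (nat_lit 285192530228106), (nat_lit 277757423193206)⟩),
     (⟨(nat_lit 34133), (Z.m (nat_lit 36129158653))⟩, ⟨(nat_lit 253893275687987040), (nat_lit 256913216163178976), (nat_lit 280738977410016), (nat_lit 282210976011296), (nat_lit 286193497607034), (nat_lit 276756455814278)⟩)]] = true := by decide +kernel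
def b35_1 : i1S (itT Tr C dn) C (nat_lit 35) v35_1 [
    [(⟨(nat_lit 30277), (Z.m (nat_lit 240485873890))⟩, ⟨(nat_lit 1469791985452044032), (nat_lit 1513351539012849152), (nat_lit 282205577293130), (nat_lit 280744376128182), (nat_lit 285504525863386), (nat_lit 277445427557926)⟩),
     (⟨(nat_lit 128979), (Z.m (nat_lit 510555524851))⟩, ⟨(nat_lit 1794382089711098624), (nat_lit 1805120891420137728), (nat_lit 283702605730062), (nat_lit 279247347691250), (nat_lit 283166178264796), (nat_lit 279783775156516)⟩),
     (⟨(nat_lit 33139), (Z.m (nat_lit 47230404144))⟩, ⟨(nat_lit 467532398206823744), (nat_lit 483309458428531136), (nat_lit 281822626588178), (nat_lit 281127326833134), (nat_lit 284936348712410), (nat_lit 278013604708902)⟩),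
     (⟨(nat_lit 237489), (Z.m (nat_lit 561042561494))⟩, ⟨(nat_lit 1407105485146536704), (nat_lit 1459102319995624448), (nat_lit 281090742309824), (nat_lit 281859211111488), (nat_lit 286081405521740), (nat_lit 276868547899572)⟩),
     (⟨(nat_lit 38503), (Z.p (nat_lit 2078076230))⟩, ⟨(nat_lit 367575023655202560), (nat_lit 382126748038427840), (nat_lit 281180019211716), (nat_lit 281769934209596), (nat_lit 285541437105860), (nat_lit 277408516315452)⟩)]] = true := by decide +kernel
def b35_2 : i1S (itT Tr C dn) C (nat_lit 35) v35_2 [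
    [(⟨(nat_lit 81979), (Z.m (nat_lit 338492477300))⟩, ⟨(nat_lit 2024474738265542400), (nat_lit 1965555219617106688), (nat_lit 289183605592374), (nat_lit 273766347828938), (nat_lit 287420203911078), (nat_lit 275529749510234)⟩),
     (⟨(nat_lit 130594), (Z.m (nat_lit 328192182274))⟩, ⟨(nat_lit 1073261466416760960), (nat_lit 1063149562426356992), (nat_lit 288464363054446), (nat_lit 274485590366866), (nat_lit 288532656364776), (nat_lit 274417297056536)⟩),
     (⟨(nat_lit 9359), (Z.m (nat_lit 147461284092))⟩, ⟨(nat_lit 875477626879975296), (nat_lit 875288764082205568), (nat_lit 286579258462446), (nat_lit 276370694958866), (nat_lit 291320320372482), (nat_lit 271629633048830)⟩),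
     (⟨(nat_lit 32413), (Z.m (nat_lit 25256822040))⟩, ⟨(nat_lit 526007435902874752), (nat_lit 518776896536730624), (nat_lit 287259043809140), (nat_lit 275690909612172), (nat_lit 289561148450194), (nat_lit 273388804971118)⟩),
     (⟨(nat_lit 177912), (Z.m (nat_lit 514071489731))⟩, ⟨(nat_lit 1673103772981753344), (nat_lit 1688719578859200256), (nat_lit 285416371813402), (nat_lit 277533581607910), (nat_lit 292290126191338), (nat_lit 270659827229974)⟩),
     (⟨(nat_lit 38392), (Z.p (nat_lit 22474970672))⟩, ⟨(nat_lit 416929512217349760), (nat_lit 415975362627817600), (nat_lit 286337851154704), (nat_lit 276612102266610), (nat_lit 290784689946028), (nat_lit 272165263475284)⟩)]] = true := by decide +kernel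
def b35_3 : i1S (itT Tr C dn) C (nat_lit 35) v35_3 [
    [(⟨(nat_lit 9683), (Z.m (nat_lit 150770264462))⟩, ⟨(nat_lit 1685123095549533696), (nat_lit 1724724254143597312), (nat_lit 289570000403724), (nat_lit 273379953017588), (nat_lit 294424285144464), (nat_lit 268525668276850)⟩),
     (⟨(nat_lit 67428), (Z.m (nat_lit 284093075364))⟩, ⟨(nat_lit 1881963731427127552), (nat_lit 1882693603218294016), (nat_lit 291923842819218), (nat_lit 271026110602094), (nat_lit 291215528461486), (nat_lit 271734424959826)⟩),
     (⟨(nat_lit 26082), (Z.m (nat_lit 17648089137))⟩, ⟨(nat_lit 471371945209868992), (nat_lit 475968959833371392), (nat_lit 290082948658974), (nat_lit 272867004762338), (nat_lit 293779330744966), (nat_lit 269170622676346)⟩),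
     (⟨(nat_lit 151655), (Z.m (nat_lit 445170079026))⟩, ⟨(nat_lit 1650067942602561024), (nat_lit 1713223938848176128), (nat_lit 287609987697658), (nat_lit 275339965723654), (nat_lit 296905762051298), (nat_lit 266044191370014)⟩),
     (⟨(nat_lit 34103), (Z.p (nat_lit 40135633413))⟩, ⟨(nat_lit 384454123336252032), (nat_lit 393161709609896960), (nat_lit 289021537039796), (nat_lit 273928416381516), (nat_lit 295098388248378), (nat_lit 267851565172934)⟩)]] = true := by decide +kernel
def b35_4 : i1S (itT Tr C dn) C (nat_lit 35) v35_4 [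
    [(⟨(nat_lit 48446), (Z.m (nat_lit 234773774104))⟩, ⟨(nat_lit 1942569205491483136), (nat_lit 2163551887975202560), (nat_lit 292157492902060), (nat_lit 270792460519252), (nat_lit 292896076998692), (nat_lit 270053876422620)⟩),
     (⟨(nat_lit 45103), (Z.m (nat_lit 206429936048))⟩, ⟨(nat_lit 1242516346905201664), (nat_lit 1412623548048110848), (nat_lit 290874895297720), (nat_lit 272075058123592), (nat_lit 294490650944156), (nat_lit 268459302477156)⟩),
     (⟨(nat_lit 18734), (Z.m (nat_lit 9278362782))⟩, ⟨(nat_lit 475114102642229376), (nat_lit 533791210285309888), (nat_lit 290292820638586), (nat_lit 272657132782726), (nat_lit 295540376083896), (nat_lit 267409577337416)⟩),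
     (⟨(nat_lit 56528), (Z.m (nat_lit 215591964864))⟩, ⟨(nat_lit 1153178027172010496), (nat_lit 1308449602559089408), (nat_lit 288690217059834), (nat_lit 274259736361478), (nat_lit 298232465629564), (nat_lit 264717487791750)⟩),
     (⟨(nat_lit 6665), (Z.m (nat_lit 74358980867))⟩, ⟨(nat_lit 408397874776378112), (nat_lit 467675633958156032), (nat_lit 289509879716532), (nat_lit 273440073704780), (nat_lit 296784104911404), (nat_lit 266165848509908)⟩),
     (⟨(nat_lit 117104), (Z.m (nat_lit 368953903766))⟩, ⟨(nat_lit 1765118452699472384), (nat_lit 2034824777170845440), (nat_lit 287808152880900), (nat_lit 275141800540412), (nat_lit 298827814836496), (nat_lit 264122138584816)⟩),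
     (⟨(nat_lit 23324), (Z.p (nat_lit 31039126172))⟩, ⟨(nat_lit 395662861415629184), (nat_lit 449818409223981376), (nat_lit 289282902595438), (nat_lit 273667050825874), (nat_lit 296846772616142), (nat_lit 266103180805170)⟩)]] = true := by decide +kernel

end Pool.Agent.Helper26.CL.C7q
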